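import Pool.Agent.Work.MP_db9399_dn.Interface

/-! # MP_db9399, small clusters: the family of small near-closed sets (helper75) -/

set_option autoImplicit false

namespace Pool.Agent.Work.MP_db9399_lc.helper75

open Finset Classical
open Pool.Agent.Work.MP_db9399_all (nb)

universe u

section
variable {V : Type u} [Fintype V] (G : SimpleGraph V)

/-- number of edges leaving `A` -/
noncomputable def bd (A : Finset V) : ℕ := ∑ v ∈ A, (nb G v \ A).card

variable {G}

theorem mem_nb {v w : V} : w ∈ nb G v ↔ G.Adj v w := by simp [nb]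

/-- double counting -/
theorem sum_comm_nb (A B : Finset V) :
    ∑ v ∈ A, (nb G v ∩ B).card = ∑ w ∈ B, (nb G w ∩ A).card := by
  have h1 : ∀ (X Y : Finset V), ∑ v ∈ X, (nb G v ∩ Y).card =
      ∑ v ∈ X, ∑ w ∈ Y, if G.Adj v w then 1 else 0 := by
    intro X Y
    apply sum_congr rfl
    intro v _
    rw [← card_filter]
    congr 1
    ext w
    rw [mem_inter, mem_nb, mem_filter]
    tauto
  rw [h1, h1, sum_comm]
  apply sum_congr rfl
  intro w _
  apply sum_congr rfl
  intro v _
  simp only [SimpleGraph.adj_comm]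

theorem bd_inter (A B : Finset V) : bd G (A ∩ B) ≤ bd G A + bd G B := by
  rw [bd, bd, bd]
  calc ∑ v ∈ A ∩ B, (nb G v \ (A ∩ B)).card
      ≤ ∑ v ∈ A ∩ B, ((nb G v \ A).card + (nb G v \ B).card) := by
        apply sum_le_sum
        intro v _
        refine le_trans (card_le_card ?_) (card_union_le _ _)
        intro w hw
        rw [mem_sdiff, mem_inter] at hw
        rw [mem_union, mem_sdiff, mem_sdiff]
        by_cases h : w ∈ A
        · exact Or.inr ⟨hw.1, fun h' => hw.2 ⟨h, h'⟩⟩
        · exact Or.inl ⟨hw.1, h⟩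
    _ = ∑ v ∈ A ∩ B, (nb G v \ A).card + ∑ v ∈ A ∩ B, (nb G v \ B).card := sum_add_distrib
    _ ≤ _ := add_le_add (sum_le_sum_of_subset inter_subset_left)
        (sum_le_sum_of_subset inter_subset_right)

theorem bd_sdiff (A B : Finset V) : bd G (A \ B) ≤ bd G A + bd G B := by
  rw [bd, bd, bd]
  calc ∑ v ∈ A \ B, (nb G v \ (A \ B)).card
      ≤ ∑ v ∈ A \ B, ((nb G v \ A).card + (nb G v ∩ B).card) := by
        apply sum_le_sum
        intro v _
        refine le_trans (card_le_card ?_) (card_union_le _ _)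
        intro w hw
        rw [mem_sdiff, mem_sdiff] at hw
        rw [mem_union, mem_sdiff, mem_inter]
        by_cases h : w ∈ A
        · right
          refine ⟨hw.1, ?_⟩
          by_contra h'
          exact hw.2 ⟨h, h'⟩
        · exact Or.inl ⟨hw.1, h⟩
    _ = ∑ v ∈ A \ B, (nb G v \ A).card + ∑ v ∈ A \ B, (nb G v ∩ B).card := sum_add_distrib
    _ ≤ ∑ v ∈ A, (nb G v \ A).card + ∑ v ∈ B, (nb G v \ B).card := by
        apply add_le_add (sum_le_sum_of_subset sdiff_subset)
        rw [sum_comm_nb]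
        apply sum_le_sum
        intro w _
        apply card_le_card
        intro v hv
        rw [mem_inter, mem_sdiff] at hv
        rw [mem_sdiff]
        exact ⟨hv.1, hv.2.2⟩

/-- deep vertices -/
noncomputable def deep (G : SimpleGraph V) (L : Finset V) (z : ℝ) (C : Finset V) : Finset V :=
  L.filter (fun v => ((nb G v \ C).card : ℝ) ≤ z)

theorem card_sdiff_deep (L C : Finset V) (z : ℝ) (hC : C ⊆ L) :
    ((C \ deep G L z C).card : ℝ) * z ≤ bd G C := by
  rw [bd]
  push_cast
  calc ((C \ deep G L z C).card : ℝ) * z = ∑ v ∈ C \ deep G L z C, z := by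
        rw [sum_const, nsmul_eq_mul]
    _ ≤ ∑ v ∈ C \ deep G L z C, ((nb G v \ C).card : ℝ) := by
        apply sum_le_sum
        intro v hv
        rw [mem_sdiff, deep, mem_filter] at hv
        by_contra h
        push Not at h
        exact hv.2 ⟨hC hv.1, h.le⟩
    _ ≤ _ := sum_le_sum_of_subset_of_nonneg sdiff_subset (fun _ _ _ => by positivity)

theorem card_deep_sdiff (L C : Finset V) (z s : ℝ)
    (hdeg : ∀ v ∈ L, s ≤ ((nb G v).card : ℝ)) :
    ((deep G L z C \ C).card : ℝ) * (s - z) ≤ bd G C := by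
  have h1 : ((deep G L z C \ C).card : ℝ) * (s - z) ≤
      ∑ v ∈ deep G L z C \ C, ((nb G v ∩ C).card : ℝ) := by
    calc ((deep G L z C \ C).card : ℝ) * (s - z) = ∑ v ∈ deep G L z C \ C, (s - z) := by
          rw [sum_const, nsmul_eq_mul]
      _ ≤ _ := by
          apply sum_le_sum
          intro v hv
          rw [mem_sdiff, deep, mem_filter] at hv
          have h2 := hdeg v hv.1.1
          have h3 : (nb G v ∩ C).card + (nb G v \ C).card = (nb G v).card :=
            card_inter_add_card_sdiff _ _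
          have h4 := hv.1.2
          have h5 : ((nb G v ∩ C).card : ℝ) + (nb G v \ C).card = (nb G v).card := by
            exact_mod_cast h3
          linarith
  have h2 : ∑ v ∈ deep G L z C \ C, (nb G v ∩ C).card ≤ bd G C := by
    rw [bd, sum_comm_nb]
    apply sum_le_sum
    intro w _
    apply card_le_card
    intro v hv
    rw [mem_inter, mem_sdiff] at hv
    rw [mem_sdiff]
    exact ⟨hv.1, hv.2.2⟩
  have h3 : ∑ v ∈ deep G L z C \ C, ((nb G v ∩ C).card : ℝ) ≤ (bd G C : ℝ) := by
    exact_mod_cast h2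
  linarith

end

/-- the family of small near-closed sets -/
theorem fam (θ z : ℝ) (hθ : 0 < θ) (hθ1 : θ ≤ 1) (hz : 0 < z) (hz1 : z ≤ θ / 2) :
    ∃ ζ : ℝ, 0 < ζ ∧ ∀ {V : Type u} [Fintype V] (G : SimpleGraph V) (d : ℕ) (L : Finset V),
      0 < d → (∀ v ∈ L, 3 / 4 * (d : ℝ) ≤ ((nb G v).card : ℝ)) →
      (∀ C ⊆ L, (C.card : ℝ) ≤ (1 + θ) * d → θ * d * C.card ≤ (bd G C : ℝ)) →
      ∃ CC : Finset (Finset V),
        (∀ C ∈ CC, C ⊆ L ∧ (1 + θ / 2) * d ≤ (C.card : ℝ) ∧ (C.card : ℝ) ≤ (2 + 2 * θ) * d ∧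
          ∀ v ∈ C, ((nb G v \ C).card : ℝ) ≤ z * d) ∧
        (∀ C ∈ CC, ∀ D ∈ CC, C ≠ D → Disjoint C D) ∧
        ∀ A ⊆ L, (A.card : ℝ) ≤ (2 + θ) * d → (bd G A : ℝ) ≤ ζ * d ^ 2 → z * d < A.card →
          ∃ C ∈ CC, ((A \ C).card : ℝ) ≤ z * d ∧ ((C \ A).card : ℝ) ≤ z * d := by
  obtain ⟨ζ, hζ⟩ : ∃ ζ : ℝ, ζ = z ^ 2 * θ / 64 := ⟨_, rfl⟩
  have hζ0 : 0 < ζ := by rw [hζ]; positivity
  refine ⟨ζ, hζ0, ?_⟩
  intro V _ G d L hd hdeg hnsc
  have hd0 : (0 : ℝ) < d := by exact_mod_cast hd
  have hz2 : z ≤ 1 / 2 := by linarith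
  -- small sets
  have hsm : ∀ C ⊆ L, (bd G C : ℝ) ≤ 2 * ζ * d ^ 2 → (C.card : ℝ) ≤ z / 8 * d ∨
      (1 + θ) * d < C.card := by
    intro C hC hb
    by_contra h
    push Not at h
    have h1 := hnsc C hC h.2
    have h2 : θ * d * (z / 8 * d) < θ * d * C.card :=
      mul_lt_mul_of_pos_left h.1 (by positivity)
    have h3 : 2 * ζ * (d : ℝ) ^ 2 ≤ θ * d * (z / 8 * d) := by
      have h4 : 2 * ζ ≤ θ * (z / 8) := by
        rw [hζ]
        nlinarith [mul_pos hz hθ]
      nlinarith [sq_nonneg (d : ℝ)]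
    linarith
  obtain ⟨Nr, hNr⟩ : ∃ Nr : Finset V → Prop, Nr = fun A => A ⊆ L ∧ (A.card : ℝ) ≤ (2 + θ) * d ∧
      (bd G A : ℝ) ≤ ζ * d ^ 2 ∧ z * d < A.card := ⟨_, rfl⟩
  have hNr' : ∀ A, Nr A ↔ A ⊆ L ∧ (A.card : ℝ) ≤ (2 + θ) * d ∧
      (bd G A : ℝ) ≤ ζ * d ^ 2 ∧ z * d < A.card := fun A => by rw [hNr]
  have hbig : ∀ A, Nr A → (1 + θ) * d < A.card := by
    intro A hA
    rw [hNr'] at hA
    obtain ⟨h1, h2, h3, h4⟩ := hA
    rcases hsm A h1 (by nlinarith [sq_nonneg (d : ℝ)]) with h5 | h5
    · exfalso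
      nlinarith
    · exact h5
  have huncr : ∀ A B, Nr A → Nr B → ((A ∩ B).card : ℝ) ≤ z / 8 * d ∨
      ((A \ B).card : ℝ) ≤ z / 8 * d := by
    intro A B hA hB
    rw [hNr'] at hA hB
    obtain ⟨h1, h2, h3, h4⟩ := hA
    obtain ⟨h1', h2', h3', h4'⟩ := hB
    have h5 : (bd G (A ∩ B) : ℝ) ≤ 2 * ζ * d ^ 2 := by
      have : (bd G (A ∩ B) : ℝ) ≤ bd G A + bd G B := by exact_mod_cast bd_inter A B
      linarith
    have h6 : (bd G (A \ B) : ℝ) ≤ 2 * ζ * d ^ 2 := by
      have : (bd G (A \ B) : ℝ) ≤ bd G A + bd G B := by exact_mod_cast bd_sdiff A B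
      linarith
    rcases hsm _ (inter_subset_left.trans h1) h5 with h7 | h7
    · exact Or.inl h7
    · rcases hsm _ (sdiff_subset.trans h1) h6 with h8 | h8
      · exact Or.inr h8
      · exfalso
        have h9 : ((A ∩ B).card : ℝ) + (A \ B).card = A.card := by
          exact_mod_cast card_inter_add_card_sdiff A B
        nlinarith
  -- maximal family
  obtain ⟨Ok, hOk⟩ : ∃ Ok : Finset (Finset V) → Prop, Ok = fun F => (∀ A ∈ F, Nr A) ∧
      ∀ A ∈ F, ∀ B ∈ F, A ≠ B → ((A ∩ B).card : ℝ) ≤ z / 8 * d := ⟨_, rfl⟩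
  have hOk' : ∀ F, Ok F ↔ (∀ A ∈ F, Nr A) ∧
      ∀ A ∈ F, ∀ B ∈ F, A ≠ B → ((A ∩ B).card : ℝ) ≤ z / 8 * d := fun F => by rw [hOk]
  obtain ⟨F, hF, hFmax⟩ := Finset.exists_max_image
    ((univ : Finset (Finset (Finset V))).filter Ok) Finset.card
    ⟨∅, by rw [mem_filter, hOk']; exact ⟨mem_univ _, by simp, by simp⟩⟩
  rw [mem_filter, hOk'] at hF
  obtain ⟨_, hF1, hF2⟩ := hF
  -- the deep sets
  obtain ⟨dp, hdp⟩ : ∃ dp : Finset V → Finset V, dp = fun A => deep G L (z / 4 * d) A := ⟨_, rfl⟩
  have hdpm : ∀ A v, v ∈ dp A ↔ v ∈ L ∧ ((nb G v \ A).card : ℝ) ≤ z / 4 * d := by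
    intro A v
    rw [hdp]
    simp only
    rw [deep, mem_filter]
  have hd1 : ∀ A, Nr A → ((A \ dp A).card : ℝ) ≤ z / 16 * d := by
    intro A hA
    rw [hNr'] at hA
    have h1 := card_sdiff_deep (G := G) L A (z / 4 * d) hA.1
    rw [hdp]
    simp only
    by_contra h
    push Not at h
    have h2 : z / 16 * d * (z / 4 * d) < ((A \ deep G L (z / 4 * d) A).card : ℝ) * (z / 4 * d) :=
      mul_lt_mul_of_pos_right h (by positivity)
    have h3 : ζ * (d : ℝ) ^ 2 ≤ z / 16 * d * (z / 4 * d) := by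
      have h4 : ζ ≤ z / 16 * (z / 4) := by
        rw [hζ]
        nlinarith [sq_nonneg z, mul_le_mul_of_nonneg_left hθ1 (sq_nonneg z)]
      nlinarith [sq_nonneg (d : ℝ)]
    linarith [hA.2.2.1]
  have hd2 : ∀ A, Nr A → ((dp A \ A).card : ℝ) ≤ z / 16 * d := by
    intro A hA
    rw [hNr'] at hA
    have h1 := card_deep_sdiff (G := G) L A (z / 4 * d) (3 / 4 * d) hdeg
    rw [hdp]
    simp only
    by_contra h
    push Not at h
    have h2 : (0 : ℝ) < 3 / 4 * d - z / 4 * d := by nlinarith
    have h3 : z / 16 * d * (3 / 4 * d - z / 4 * d) <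
        ((deep G L (z / 4 * d) A \ A).card : ℝ) * (3 / 4 * d - z / 4 * d) :=
      mul_lt_mul_of_pos_right h h2
    have h4 : ζ * (d : ℝ) ^ 2 ≤ z / 16 * d * (3 / 4 * d - z / 4 * d) := by
      have h5 : ζ ≤ z / 16 * (3 / 4 - z / 4) := by
        rw [hζ]
        nlinarith [sq_nonneg z, mul_le_mul_of_nonneg_left hθ1 (sq_nonneg z), mul_pos hz hz]
      nlinarith [sq_nonneg (d : ℝ)]
    linarith [hA.2.2.1]
  have hdis : ∀ A ∈ F, ∀ B ∈ F, A ≠ B → Disjoint (dp A) (dp B) := by
    intro A hA B hB hAB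
    rw [disjoint_left]
    intro v hv hv'
    rw [hdpm] at hv hv'
    have h1 := hdeg v hv.1
    have h2 := hF2 A hA B hB hAB
    have h3 : (nb G v).card ≤ (nb G v \ A).card + (nb G v \ B).card + (A ∩ B).card := by
      calc (nb G v).card ≤ ((nb G v \ A) ∪ (nb G v \ B) ∪ (A ∩ B)).card := by
            apply card_le_card
            intro w hw
            rw [mem_union, mem_union, mem_sdiff, mem_sdiff, mem_inter]
            by_cases h4 : w ∈ A <;> by_cases h5 : w ∈ B <;> tauto
        _ ≤ ((nb G v \ A) ∪ (nb G v \ B)).card + (A ∩ B).card := card_union_le _ _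
        _ ≤ _ := Nat.add_le_add_right (card_union_le _ _) _
    have h4 : ((nb G v).card : ℝ) ≤ (nb G v \ A).card + (nb G v \ B).card + (A ∩ B).card := by
      exact_mod_cast h3
    nlinarith [hv.2, hv'.2]
  refine ⟨F.image dp, ?_, ?_, ?_⟩
  · intro C hC
    rw [mem_image] at hC
    obtain ⟨A, hA, rfl⟩ := hC
    have hA' := hF1 A hA
    have h1 := hd1 A hA'
    have h2 := hd2 A hA'
    have h3 := hbig A hA'
    have h4 : (A.card : ℝ) ≤ (2 + θ) * d := ((hNr' A).mp hA').2.1
    have h5 : (A.card : ℝ) ≤ (dp A).card + (A \ dp A).card := by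
      have : A.card ≤ (dp A).card + (A \ dp A).card := by
        calc A.card ≤ (dp A ∪ (A \ dp A)).card := by
              apply card_le_card
              intro w hw
              rw [mem_union, mem_sdiff]
              tauto
          _ ≤ _ := card_union_le _ _
      exact_mod_cast this
    have h6 : ((dp A).card : ℝ) ≤ A.card + (dp A \ A).card := by
      have : (dp A).card ≤ A.card + (dp A \ A).card := by
        calc (dp A).card ≤ (A ∪ (dp A \ A)).card := by
              apply card_le_card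
              intro w hw
              rw [mem_union, mem_sdiff]
              tauto
          _ ≤ _ := card_union_le _ _
      exact_mod_cast this
    refine ⟨fun v hv => ((hdpm A v).mp hv).1, by nlinarith, by nlinarith, ?_⟩
    intro v hv
    have h7 := ((hdpm A v).mp hv).2
    have h8 : ((nb G v \ dp A).card : ℝ) ≤ (nb G v \ A).card + (A \ dp A).card := by
      have : (nb G v \ dp A).card ≤ (nb G v \ A).card + (A \ dp A).card := by
        calc (nb G v \ dp A).card ≤ ((nb G v \ A) ∪ (A \ dp A)).card := by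
              apply card_le_card
              intro w hw
              rw [mem_sdiff] at hw
              rw [mem_union, mem_sdiff, mem_sdiff]
              tauto
          _ ≤ _ := card_union_le _ _
      exact_mod_cast this
    nlinarith
  · intro C hC D hD hCD
    rw [mem_image] at hC hD
    obtain ⟨A, hA, rfl⟩ := hC
    obtain ⟨B, hB, rfl⟩ := hD
    exact hdis A hA B hB (fun h => hCD (by rw [h]))
  · intro A hAL hAc hAb hAz
    have hA : Nr A := (hNr' A).mpr ⟨hAL, hAc, hAb, hAz⟩
    obtain ⟨B, hB, hAB, hBA⟩ : ∃ B ∈ F, ((A \ B).card : ℝ) ≤ z / 8 * d ∧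
        ((B \ A).card : ℝ) ≤ z / 8 * d := by
      by_cases hAF : A ∈ F
      · refine ⟨A, hAF, ?_, ?_⟩ <;> (rw [sdiff_self]; simp; positivity)
      · by_contra hno
        push Not at hno
        have h1 : Ok (insert A F) := by
          rw [hOk']
          have h2 : ∀ B ∈ F, ((A ∩ B).card : ℝ) ≤ z / 8 * d := by
            intro B hB
            rcases huncr A B hA (hF1 B hB) with h3 | h3
            · exact h3
            · rcases huncr B A (hF1 B hB) hA with h4 | h4
              · rwa [inter_comm] at h4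
              · exact absurd h4 (not_le.mpr (hno B hB h3))
          refine ⟨?_, ?_⟩
          · intro B hB
            rw [mem_insert] at hB
            rcases hB with rfl | hB
            · exact hA
            · exact hF1 B hB
          · intro B hB C hC hBC
            rw [mem_insert] at hB hC
            rcases hB with rfl | hB <;> rcases hC with rfl | hC
            · exact absurd rfl hBC
            · exact h2 C hC
            · rw [inter_comm]
              exact h2 B hB
            · exact hF2 B hB C hC hBC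
        have h2 := hFmax _ (mem_filter.mpr ⟨mem_univ _, h1⟩)
        rw [card_insert_of_notMem hAF] at h2
        omega
    refine ⟨dp B, mem_image_of_mem dp hB, ?_, ?_⟩
    · have h1 := hd1 B (hF1 B hB)
      have h2 : ((A \ dp B).card : ℝ) ≤ (A \ B).card + (B \ dp B).card := by
        have : (A \ dp B).card ≤ (A \ B).card + (B \ dp B).card := by
          calc (A \ dp B).card ≤ ((A \ B) ∪ (B \ dp B)).card := by
                apply card_le_card
                intro w hw
                rw [mem_sdiff] at hw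
                rw [mem_union, mem_sdiff, mem_sdiff]
                tauto
            _ ≤ _ := card_union_le _ _
        exact_mod_cast this
      nlinarith
    · have h1 := hd2 B (hF1 B hB)
      have h2 : ((dp B \ A).card : ℝ) ≤ (dp B \ B).card + (B \ A).card := by
        have : (dp B \ A).card ≤ (dp B \ B).card + (B \ A).card := by
          calc (dp B \ A).card ≤ ((dp B \ B) ∪ (B \ A)).card := by
                apply card_le_card
                intro w hw
                rw [mem_sdiff] at hw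
                rw [mem_union, mem_sdiff, mem_sdiff]
                tauto
            _ ≤ _ := card_union_le _ _
        exact_mod_cast this
      nlinarith

end Pool.Agent.Work.MP_db9399_lc.helper75
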